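import Pool.Agent.TH983.FC.Orb

/-! An upper bound for the number of labelled copies of a six-vertex pattern, some pairs of which may
be uncovered: tuples with a repeated vertex are counted separately. -/

set_option autoImplicit false
set_option maxRecDepth 100000
set_option maxHeartbeats 4000000
open Finset
open scoped Classical

namespace Pool.Agent.Run7.h247.T34
open Pool.Agent.H122R2.N6 Pool.Agent.H37R3.Pen Pool.Agent.H37R3.Cop Pool.Agent.H37R3.CopL
  Pool.Agent.TH983.FC

variable {V : Type}

theorem induces_of_copyW {H : Finset (Finset V)} {m : ℕ} {F : Finset (Finset (Fin 6))}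
    (hm : MaskW m F) {f : Fin 6 → V} (hinj : Function.Injective f) (hc : Copy (tri H) m f) :
    Induces F H (univ.image f) := by
  refine ⟨f, hinj, rfl, ?_⟩
  intro t ht
  obtain ⟨i, j, k, hij, hjk, rfl⟩ := sorted3 t ht
  rw [← hm i j k hij hjk, ← hc i j k hij hjk, tri_one]
  simp only [image_insert, image_singleton]

theorem card_eq_pair [Fintype V] (i j : Fin 6) (hij : i ≠ j) :
    ((univ : Finset (Fin 6 → V)).filter fun x => x i = x j).card ≤ Fintype.card V ^ 5 := by
  have h1 : Fintype.card ({k : Fin 6 // k ≠ j} → V) = Fintype.card V ^ 5 := by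
    rw [Fintype.card_fun]
    congr 1
    simp
  rw [← h1, ← card_univ]
  refine card_le_card_of_injOn (fun x k => x k.val) (fun _ _ => by simp) ?_
  intro x hx y hy hxy
  rw [mem_coe, mem_filter] at hx hy
  funext k
  by_cases hk : k = j
  · subst hk
    rw [← hx.2, ← hy.2]
    exact congrFun hxy ⟨i, hij⟩
  · exact congrFun hxy ⟨k, hk⟩

theorem card_noninj [Fintype V] :
    ((univ : Finset (Fin 6 → V)).filter fun x => ¬ Function.Injective x).card ≤
      15 * Fintype.card V ^ 5 := by
  set P : Finset (Fin 6 × Fin 6) := univ.filter fun p => p.1 < p.2 with hP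
  have hc : P.card = 15 := by rw [hP]; decide +kernel
  have hsub : ((univ : Finset (Fin 6 → V)).filter fun x => ¬ Function.Injective x) ⊆
      P.biUnion fun p => (univ : Finset (Fin 6 → V)).filter fun x => x p.1 = x p.2 := by
    intro x hx
    rw [mem_filter] at hx
    obtain ⟨-, hx⟩ := hx
    rw [Function.not_injective_iff] at hx
    obtain ⟨i, j, hij, hne⟩ := hx
    rw [mem_biUnion]
    rcases lt_or_gt_of_ne hne with h | h
    · exact ⟨(i, j), by rw [hP, mem_filter]; exact ⟨mem_univ _, h⟩,
        by rw [mem_filter]; exact ⟨mem_univ _, hij⟩⟩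
    · exact ⟨(j, i), by rw [hP, mem_filter]; exact ⟨mem_univ _, h⟩,
        by rw [mem_filter]; exact ⟨mem_univ _, hij.symm⟩⟩
  refine (card_le_card hsub).trans (card_biUnion_le.trans ?_)
  calc _ ≤ ∑ p ∈ P, Fintype.card V ^ 5 := by
        refine sum_le_sum fun p hp => ?_
        rw [hP, mem_filter] at hp
        exact card_eq_pair p.1 p.2 hp.2.ne
    _ = 15 * Fintype.card V ^ 5 := by rw [sum_const, hc, smul_eq_mul]

theorem sum_XL_le_deg [Fintype V] {H : Finset (Finset V)} {m : ℕ} {F : Finset (Finset (Fin 6))}
    (hm : MaskW m F) :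
    ∑ x : Fin 6 → V, XL (tri H) [m] x ≤
      720 * (((univ : Finset V).powersetCard 6).filter fun S => Induces F H S).card +
        15 * Fintype.card V ^ 5 := by
  set TA := ((univ : Finset V).powersetCard 6).filter fun S => Induces F H S with hTA
  have e1 : ∑ x : Fin 6 → V, XL (tri H) [m] x =
      ((univ : Finset (Fin 6 → V)).filter fun x => RelL (tri H) [m] x).card := by
    rw [card_filter]; rfl
  have hsub : ((univ : Finset (Fin 6 → V)).filter fun x => RelL (tri H) [m] x) ⊆
      ((univ : Finset (Fin 6 → V)).filter fun x => univ.image x ∈ TA) ∪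
        ((univ : Finset (Fin 6 → V)).filter fun x => ¬ Function.Injective x) := by
    intro x hx
    by_cases hinj : Function.Injective x
    · refine mem_union_left _ (mem_filter.mpr ⟨mem_univ _, ?_⟩)
      rw [mem_filter] at hx
      obtain ⟨-, g, hg, m', hm', hc⟩ := hx
      rw [List.mem_singleton] at hm'
      subst hm'
      have hgs : Function.Surjective g := Finite.surjective_of_injective hg
      have him : univ.image (x ∘ g) = univ.image x := by
        ext v
        simp only [mem_image, mem_univ, true_and, Function.comp]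
        constructor
        · rintro ⟨i, hi⟩; exact ⟨g i, hi⟩
        · rintro ⟨i, hi⟩
          obtain ⟨j, hj⟩ := hgs i
          exact ⟨j, by rw [hj]; exact hi⟩
      have h1 := induces_of_copyW hm (hinj.comp hg) hc
      rw [him] at h1
      rw [hTA]
      refine mem_filter.mpr ⟨mem_powersetCard.mpr ⟨subset_univ _, ?_⟩, h1⟩
      rw [card_image_of_injective _ hinj]; rfl
    · exact mem_union_right _ (mem_filter.mpr ⟨mem_univ _, hinj⟩)
  have h2 : ((univ : Finset (Fin 6 → V)).filter fun x => univ.image x ∈ TA).card ≤ 720 * TA.card := by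
    have hmap : ∀ x ∈ (univ : Finset (Fin 6 → V)).filter (fun x => univ.image x ∈ TA),
        univ.image x ∈ TA := fun x hx => (mem_filter.mp hx).2
    rw [card_eq_sum_card_fiberwise hmap]
    calc _ ≤ ∑ S ∈ TA, 720 := by
          refine sum_le_sum fun S hS => ?_
          have hS6 : S.card = 6 := (mem_powersetCard.mp (mem_filter.mp hS).1).2
          refine (card_le_card ?_).trans (fiber_le S hS6)
          intro x hx
          rw [mem_filter] at hx ⊢
          exact ⟨mem_univ _, hx.2⟩
      _ = 720 * TA.card := by rw [sum_const, smul_eq_mul, mul_comm]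
  rw [e1]
  refine (card_le_card hsub).trans ((card_union_le _ _).trans ?_)
  exact Nat.add_le_add h2 card_noninj

end Pool.Agent.Run7.h247.T34
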