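import Pool.Agent.Run7.h247.T34.D1Psd
import Pool.Agent.Run7.h247.T34.Deg

set_option autoImplicit false
set_option maxRecDepth 100000
set_option maxHeartbeats 4000000
open Finset

namespace Pool.Agent.Run7.h247.T34.D1
open Pool.Agent.H122R2.N6 Pool.Agent.H37R3.Pen Pool.Agent.H37R3.Cop Pool.Agent.H37R3.CopL
  Pool.Agent.TH983.FC

def part (b012 b013 : ℕ) : Bool := B2 fun b023 => B2 fun b123 => B2 fun b014 => B2 fun b024 => B2 fun b124 => B2 fun b034 => B2 fun b134 => B2 fun b234 => or (not (Nat.beq (tg b012 b013 b023 b123 b014 b024 b124 b034 b134 b234) 4)) (chkX q4 q2 CST PEN LST b012 b013 b023 b123 b014 b024 b124 b034 b134 b234)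

theorem part00 : part 0 0 = true := by decide +kernel
theorem part01 : part 0 1 = true := by decide +kernel
theorem part10 : part 1 0 = true := by decide +kernel
theorem part11 : part 1 1 = true := by decide +kernel

theorem hc (b012 b013 b023 b123 b014 b024 b124 b034 b134 b234 : ℕ) (hb012 : Bt b012) (hb013 : Bt b013) (hb023 : Bt b023) (hb123 : Bt b123) (hb014 : Bt b014) (hb024 : Bt b024) (hb124 : Bt b124) (hb034 : Bt b034) (hb134 : Bt b134) (hb234 : Bt b234) (ht : tg b012 b013 b023 b123 b014 b024 b124 b034 b134 b234 = 4) :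
    chkX q4 q2 CST PEN LST b012 b013 b023 b123 b014 b024 b124 b034 b134 b234 = true := by
  have h : part b012 b013 = true := by
    rcases hb012 with rfl | rfl <;> rcases hb013 with rfl | rfl
    exacts [part00, part01, part10, part11]
  have h2 := (B2_true (B2_true (B2_true (B2_true (B2_true (B2_true (B2_true (B2_true h hb023) hb123) hb014) hb024) hb124) hb034) hb134) hb234)
  refine or_false_left h2 ?_
  rw [ht]
  rfl

theorem rng : (nall 16 fun c => and (Nat.blt (rho c) 4) (nall 64 fun i => Nat.blt (pc c i) 64)) = true := by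
  decide +kernel

theorem rho_lt {c : ℕ} (h : c < 16) : rho c < 4 := by
  have := nall_true rng c h
  rw [Bool.and_eq_true] at this
  exact Nat.le_of_ble_eq_true this.1

theorem pc_lt {c i : ℕ} (h : c < 16) (hi : i < 64) : pc c i < 64 := by
  have := nall_true rng c h
  rw [Bool.and_eq_true] at this
  exact Nat.le_of_ble_eq_true (nall_true this.2 i hi)

theorem g4_all {r i j : ℕ} (hr : r < 4) (hi : i < 64) (hj : j < 64) : g4 r i j = true := by
  have h : chk4 r = true := by
    interval_cases r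
    exacts [cp0, cp1, cp2, cp3]
  exact nall_true (nall_true h i hi) j hj

theorem expand (s : Finset ℕ) (w u v : ℕ → ℕ) (B : ℤ) :
    ∑ k ∈ s, (w k : ℤ) * ((u k : ℤ) - B) * ((v k : ℤ) - B) =
      ∑ k ∈ s, (w k : ℤ) * ((u k : ℤ) * (v k : ℤ)) + B ^ 2 * ∑ k ∈ s, (w k : ℤ)
        - B * (∑ k ∈ s, (w k : ℤ) * (u k : ℤ) + ∑ k ∈ s, (w k : ℤ) * (v k : ℤ)) := by
  rw [mul_add, mul_sum, mul_sum, mul_sum, ← sum_add_distrib, ← sum_add_distrib, ← sum_sub_distrib]
  exact sum_congr rfl fun k _ => by ring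

theorem hq4 (c i j : ℕ) (hc : c < 16) (hi : i < 64) (hj : j < 64) : (q4 c i j : ℤ) =
    ∑ k ∈ range 19, (w4 (rho c) k : ℤ) * ((l4 (rho c) (pc c i) k : ℤ) - 32768) *
      ((l4 (rho c) (pc c j) k : ℤ) - 32768) + 70368744177664 := by
  have h := Nat.eq_of_beq_eq_true (g4_all (rho_lt hc) (pc_lt hc hi) (pc_lt hc hj))
  unfold ll sw sl at h
  rw [nsum_eq, nsum_eq, nsum_eq, nsum_eq] at h
  have h2 := congrArg (fun n : ℕ => (n : ℤ)) h
  simp only [Nat.add_eq, Nat.mul_eq] at h2
  push_cast at h2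
  rw [expand (range 19) (fun k => w4 (rho c) k) (fun k => l4 (rho c) (pc c i) k)
    (fun k => l4 (rho c) (pc c j) k) 32768]
  have h3 : (q4 c i j : ℤ) = (tq (rho c) (pc c i) (pc c j) : ℤ) := rfl
  rw [h3]
  linarith

theorem hq2 (i j : ℕ) (hi : i < 16) (hj : j < 16) : (q2 i j : ℤ) =
    ∑ k ∈ range 4, (w2 k : ℤ) * ((l2 i k : ℤ) - 32768) * ((l2 j k : ℤ) - 32768)
      + (70368744177664 + 1661972899266 * ((kk i j : ℕ) : ℤ)) := by
  have h := Nat.eq_of_beq_eq_true (nall_true (nall_true cpb i hi) j hj)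
  unfold ll2 sw2 sl2 at h
  rw [nsum_eq, nsum_eq, nsum_eq, nsum_eq] at h
  have h2 := congrArg (fun n : ℕ => (n : ℤ)) h
  simp only [Nat.add_eq, Nat.mul_eq] at h2
  push_cast at h2
  rw [expand (range 4) (fun k => w2 k) (fun k => l2 i k) (fun k => l2 j k) 32768]
  linarith

/-- codes of the listed structures with isomorphisms to the pattern -/
def TAB : List (ℕ × ℕ × ℕ) := [(1043, 1043, 181896), (76800, 1043, 144488), (152576, 1043, 144425), (301056, 1043, 143914), (581632, 1043, 139819), (983040, 1043, 107052)]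

theorem iso : isoM LST TAB [1043] = true := by decide +kernel

def FS : Finset (Finset (Fin 6)) := {{0, 1, 2}, {0, 1, 3}, {0, 1, 4}, {0, 1, 5}}

theorem mask : MaskW 1043 FS := by
  unfold MaskW
  decide +kernel

open scoped Classical in
theorem main {V : Type} [Fintype V] {H : Finset (Finset V)} (hH : ∀ e ∈ H, e.card = 3)
    (hF : K43Free H) :
    600000 * Fintype.card V ^ 3 * H.card ≤ 54594 * Fintype.card V ^ 6 + 109341 * (720 *
      (((univ : Finset V).powersetCard 6).filter fun S => Induces FS H S).card +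
        15 * Fintype.card V ^ 5) := by
  have hE := tri_sy H
  have hb := boundX (tri H) hE 19 4 CST PEN (XL6 (tri H) [1043]) q4
    (fun c k => w4 (rho c) k) (fun c i k => l4 (rho c) (pc c i) k)
    q2 w2 l2 32768 70368744177664 70368744177664 (fun k => 1661972899266 * (k : ℤ)) hq4 hq2
    (leafX_all hE (tri_noK4 hH hF) (XL6_0 (tri H) _) (XL6_1 (tri H) _) (XL6_2 (tri H) _)
      (XL6_3 (tri H) _) (hmemL_of hE iso) cs4 cs2 hc)
  rw [T2_lin (tri H) hE] at hb
  simp only [XL_eq] at hb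
  have hC : (CST : ℤ) = 4385443697421870 := rfl
  have hP : (PEN : ℤ) = 327099187123751 := rfl
  rw [hC, hP] at hb
  have h1 : ∑ x : Fin 6 → V, ((XL (tri H) [1043] x : ℕ) : ℤ) ≤ ((720 *
      (((univ : Finset V).powersetCard 6).filter fun S => Induces FS H S).card +
        15 * Fintype.card V ^ 5 : ℕ) : ℤ) := by
    exact_mod_cast sum_XL_le_deg mask
  have h2 : ((6 * H.card : ℕ) : ℤ) ≤ ∑ a, ∑ b, ∑ c, ((tri H a b c : ℕ) : ℤ) := by
    exact_mod_cast six_card_le hH
  have h3 : (0 : ℤ) ≤ (Fintype.card V : ℤ) ^ 3 := by positivity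
  have h4 := mul_le_mul_of_nonneg_left h2 h3
  have h6 : (0 : ℤ) ≤ (Fintype.card V : ℤ) ^ 6 := by positivity
  have h7 : (0 : ℤ) ≤ (Fintype.card V : ℤ) ^ 5 := by positivity
  have h8 : (0 : ℤ) ≤ ((((univ : Finset V).powersetCard 6).filter fun S => Induces FS H S).card : ℤ) := by
    positivity
  have h5 : 600000 * (Fintype.card V : ℤ) ^ 3 * (H.card : ℤ) ≤ 54594 * (Fintype.card V : ℤ) ^ 6 + 109341 * (720 *
      ((((univ : Finset V).powersetCard 6).filter fun S => Induces FS H S).card : ℤ) +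
        15 * (Fintype.card V : ℤ) ^ 5) := by
    push_cast at h1 h4
    linarith
  exact_mod_cast h5

end Pool.Agent.Run7.h247.T34.D1
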